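import Mathlib
import Pool.Agent.R283.CycSpec

/-!
# The essential spectrum is connected (MP_15dca6_an)

Let `T` be a bounded operator on an infinite-dimensional complex Banach space (for instance a
Hilbert space) such that every nontrivial closed invariant subspace of `T` has finite codimension.
Then the essential spectrum of `T` is nonempty and connected.

Outline.  `T` has no eigenvalues, so the essential spectrum is the set of `z` such that `T - z` is
not bounded below; this set does not change if `T` is restricted to the closed invariant subspace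
generated by one nonzero vector, so one may assume that `T` is cyclic.  For a cyclic operator the
maximum principle shows that the set `G` of the `z` such that `T - z` is bounded below but not onto
has no holes.  A separation lemma in the plane shows that if the essential spectrum were
disconnected, then the spectrum would be disconnected too, and a Riesz decomposition would give two
nonzero operators commuting with `T` with product zero, which is impossible.
-/

set_option autoImplicit false
open Set Filter Topology Metric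

namespace Pool.Agent.Results.MP_15dca6_an.EssSpectrumConnected
open Pool.Agent.R283 Pool.Agent.R283.CycSpec

variable {E : Type*} [NormedAddCommGroup E] [NormedSpace ℂ E]

/-- Every closed invariant subspace of `T` other than `0` and the whole space has finite
codimension. -/
def InvariantSubspacesFiniteCodim (T : E →L[ℂ] E) : Prop :=
  ∀ M : Submodule ℂ E, IsClosed (M : Set E) → M ≠ ⊥ → M ≠ ⊤ → (∀ y ∈ M, T y ∈ M) →
    FiniteDimensional ℂ (E ⧸ M)

/-- The essential spectrum of `T`: the complex numbers `z` such that `T - z` is not invertible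
modulo the compact operators. -/
def essSpectrum (T : E →L[ℂ] E) : Set ℂ :=
  {z | ¬ ∃ S : E →L[ℂ] E, IsCompactOperator (S * (T - z • 1) - 1 : E →L[ℂ] E) ∧
    IsCompactOperator ((T - z • 1) * S - 1 : E →L[ℂ] E)}

lemma no_eigenvector {T : E →L[ℂ] E} (hinf : ¬ FiniteDimensional ℂ E)
    (hQ : InvariantSubspacesFiniteCodim T) {z : ℂ} {y : E} (hy : T y = z • y) : y = 0 := by
  by_contra hne
  have hfin : FiniteDimensional ℂ (Submodule.span ℂ {y}) := inferInstance
  have hquot : FiniteDimensional ℂ (E ⧸ Submodule.span ℂ {y}) := by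
    refine hQ _ (Submodule.closed_of_finiteDimensional _) ?_ ?_ ?_
    · intro h
      exact hne (Submodule.span_singleton_eq_bot.1 h)
    · intro h
      rw [h] at hfin
      exact hinf (LinearEquiv.finiteDimensional (Submodule.topEquiv (R := ℂ) (M := E)))
    · intro w hw
      obtain ⟨a, rfl⟩ := Submodule.mem_span_singleton.1 hw
      rw [map_smul, hy]
      exact Submodule.mem_span_singleton.2 ⟨a * z, by rw [mul_smul]⟩
  exact hinf (Module.Finite.of_submodule_quotient (Submodule.span ℂ {y}))

lemma shift_apply (T : E →L[ℂ] E) (z : ℂ) (y : E) :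
    (T - z • (1 : E →L[ℂ] E)) y = T y - z • y := by
  simp

/-- Invertibility modulo compacts and injectivity give a lower bound. -/
lemma bb_of_inverse {T : E →L[ℂ] E} {z : ℂ} (hinj : ∀ y, T y = z • y → y = 0)
    {S : E →L[ℂ] E} (hS : IsCompactOperator (S * (T - z • 1) - 1 : E →L[ℂ] E)) : BB T z := by
  by_contra hbb
  have hbb' : ∀ n : ℕ, ∃ y : E, ‖y‖ = 1 ∧ ‖T y - z • y‖ < 1 / ((n : ℝ) + 1) := by
    intro n
    by_contra hcon
    push Not at hcon
    apply hbb
    refine ⟨1 / ((n : ℝ) + 1), by positivity, fun y => ?_⟩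
    by_cases hy : y = 0
    · subst hy; simp
    · have hny : 0 < ‖y‖ := norm_pos_iff.2 hy
      have h1 := hcon (((‖y‖⁻¹ : ℝ) : ℂ) • y) (by
        rw [norm_smul, Complex.norm_real, norm_inv, norm_norm, inv_mul_cancel₀ hny.ne'])
      rw [map_smul, smul_comm z, ← smul_sub, norm_smul, Complex.norm_real, norm_inv, norm_norm] at h1
      rw [inv_mul_eq_div, le_div_iff₀ hny] at h1
      exact h1
  choose y hy1 hy2 using hbb'
  set K : E →L[ℂ] E := S * (T - z • 1) - 1 with hK
  have hcomp := hS.isCompact_closure_image_closedBall 1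
  have hmem : ∀ n, K (y n) ∈ closure (K '' Metric.closedBall 0 1) := fun n =>
    subset_closure ⟨y n, by rw [mem_closedBall, dist_zero_right, hy1 n], rfl⟩
  obtain ⟨k, _, φ, hφ, hlim⟩ := hcomp.tendsto_subseq hmem
  have hsmall : Tendsto (fun n => T (y n) - z • y n) atTop (𝓝 0) := by
    refine squeeze_zero_norm (fun n => (hy2 n).le) ?_
    exact tendsto_one_div_add_atTop_nhds_zero_nat
  have hsmall' := hsmall.comp hφ.tendsto_atTop
  have hylim : Tendsto (fun n => y (φ n)) atTop (𝓝 (-k)) := by
    have e : ∀ n, y n = S (T (y n) - z • y n) - K (y n) := by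
      intro n
      have h1 : K (y n) = S ((T - z • (1 : E →L[ℂ] E)) (y n)) - y n := rfl
      rw [h1, shift_apply]
      abel
    have h2 : Tendsto (fun n => S (T (y (φ n)) - z • y (φ n)) - K (y (φ n))) atTop
        (𝓝 (S 0 - k)) := ((S.continuous.tendsto 0).comp hsmall').sub hlim
    rw [map_zero, zero_sub] at h2
    exact h2.congr fun n => (e (φ n)).symm
  have hnorm : ‖-k‖ = 1 := by
    have h1 : Tendsto (fun n => ‖y (φ n)‖) atTop (𝓝 ‖-k‖) := hylim.norm
    simp only [hy1] at h1
    exact tendsto_nhds_unique h1 tendsto_const_nhds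
  have hzero : T (-k) = z • (-k) := by
    have h1 : Tendsto (fun n => T (y (φ n)) - z • y (φ n)) atTop (𝓝 (T (-k) - z • (-k))) :=
      ((T.continuous.tendsto _).comp hylim).sub (hylim.const_smul z)
    exact sub_eq_zero.1 (tendsto_nhds_unique h1 hsmall')
  rw [hinj _ hzero, norm_zero] at hnorm
  exact zero_ne_one hnorm

lemma bb_injective {T : E →L[ℂ] E} {z : ℂ} (h : BB T z) :
    Function.Injective (T - z • (1 : E →L[ℂ] E)) := by
  obtain ⟨c, hc, hb⟩ := h
  intro y y' hyy
  have h1 := hb (y - y')
  have h2 : T (y - y') - z • (y - y') = 0 := by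
    rw [← shift_apply, map_sub, hyy, sub_self]
  rw [h2, norm_zero] at h1
  have h3 : ‖y - y'‖ ≤ 0 := by
    by_contra hlt
    push Not at hlt
    have := mul_pos hc hlt
    linarith
  exact sub_eq_zero.1 (norm_le_zero_iff.1 h3)

variable [CompleteSpace E]

lemma bb_isClosed_range {T : E →L[ℂ] E} {z : ℂ} (h : BB T z) :
    IsClosed (Set.range (T - z • (1 : E →L[ℂ] E))) := by
  have := h.closed_range
  have e : Set.range (T - z • (1 : E →L[ℂ] E)) = Set.range fun y => T y - z • y := by
    ext w
    simp
  rwa [e]

/-- A lower bound gives an inverse modulo compacts. -/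
lemma inverse_of_bb {T : E →L[ℂ] E} (hinf : ¬ FiniteDimensional ℂ E)
    (hQ : InvariantSubspacesFiniteCodim T) {z : ℂ} (h : BB T z) :
    ∃ S : E →L[ℂ] E, IsCompactOperator (S * (T - z • 1) - 1 : E →L[ℂ] E) ∧
      IsCompactOperator ((T - z • 1) * S - 1 : E →L[ℂ] E) := by
  set R : E →L[ℂ] E := T - z • 1 with hR
  have hinj : Function.Injective R := bb_injective h
  have hclo : IsClosed (Set.range R) := bb_isClosed_range h
  have hclo' : IsClosed ((R : E →ₗ[ℂ] E).range : Set E) := by
    rw [LinearMap.coe_range]; exact hclo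
  have hcomm : ∀ y, T (R y) = R (T y) := by
    intro y
    simp only [hR, shift_apply, map_sub, map_smul]
  have hfd : FiniteDimensional ℂ (E ⧸ (R : E →ₗ[ℂ] E).range) := by
    by_cases htop : (R : E →ₗ[ℂ] E).range = ⊤
    · rw [htop]
      infer_instance
    · refine hQ _ hclo' ?_ htop ?_
      · intro hbot
        have hE : ∀ y : E, y = 0 := by
          intro y
          have : R y ∈ (R : E →ₗ[ℂ] E).range := ⟨y, rfl⟩
          rw [hbot, Submodule.mem_bot] at this
          exact hinj (this.trans (map_zero R).symm)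
        apply hinf
        have : Subsingleton E := ⟨fun a b => by rw [hE a, hE b]⟩
        infer_instance
      · rintro _ ⟨w, rfl⟩
        exact ⟨T w, (hcomm w).symm⟩
  obtain ⟨P, hP⟩ := Submodule.ClosedComplemented.of_finiteDimensional_quotient hclo'
  let e := R.equivRange hinj hclo
  let S : E →L[ℂ] E := (e.symm : (R : E →ₗ[ℂ] E).range →L[ℂ] E).comp P
  have hSR : ∀ y, S (R y) = y := by
    intro y
    have h1 : P (R y) = ⟨R y, ⟨y, rfl⟩⟩ := hP ⟨R y, ⟨y, rfl⟩⟩
    show e.symm (P (R y)) = y
    rw [h1]
    exact R.equivRange_symm_apply hinj hclo y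
  have hRS : ∀ y, R (S y) = P y := by
    intro y
    obtain ⟨w, hw⟩ := (P y).2
    have h1 : P y = ⟨R w, ⟨w, rfl⟩⟩ := Subtype.ext hw.symm
    show R (e.symm (P y)) = P y
    rw [h1]
    have h2 : e.symm (⟨R w, ⟨w, rfl⟩⟩ : (R : E →ₗ[ℂ] E).range) = w :=
      R.equivRange_symm_apply hinj hclo w
    rw [h2]
  refine ⟨S, ?_, ?_⟩
  · have : S * R - 1 = 0 := by
      ext y
      show S (R y) - y = 0
      rw [hSR, sub_self]
    rw [this]
    exact isCompactOperator_zero
  · -- `R * S - 1` vanishes on the range of `R`, which has finite codimension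
    have hfr : FiniteDimensional ℂ ((R * S - 1 : E →L[ℂ] E) : E →ₗ[ℂ] E).range := by
      have hle : (R : E →ₗ[ℂ] E).range ≤ ((R * S - 1 : E →L[ℂ] E) : E →ₗ[ℂ] E).ker := by
        rintro _ ⟨w, rfl⟩
        show R (S (R w)) - R w = 0
        rw [hSR, sub_self]
      let q := (R : E →ₗ[ℂ] E).range.liftQ ((R * S - 1 : E →L[ℂ] E) : E →ₗ[ℂ] E) hle
      have hq : q.range = ((R * S - 1 : E →L[ℂ] E) : E →ₗ[ℂ] E).range :=
        Submodule.range_liftQ _ _ _
      rw [← hq]
      infer_instance
    set F : E →L[ℂ] E := R * S - 1 with hF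
    have hloc : LocallyCompactSpace (F : E →ₗ[ℂ] E).range := by
      have : ProperSpace (F : E →ₗ[ℂ] E).range := FiniteDimensional.proper ℂ _
      infer_instance
    have h1 : IsCompactOperator (F.codRestrict (F : E →ₗ[ℂ] E).range fun y => ⟨y, rfl⟩) :=
      isCompactOperator_of_locallyCompactSpace_dom _
    have h2 := h1.clm_comp ((F : E →ₗ[ℂ] E).range.subtypeL)
    exact h2

lemma essSpectrum_eq {T : E →L[ℂ] E} (hinf : ¬ FiniteDimensional ℂ E)
    (hQ : InvariantSubspacesFiniteCodim T) : essSpectrum T = {z | ¬ BB T z} := by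
  ext z
  constructor
  · intro hz hbb
    exact hz (inverse_of_bb hinf hQ hbb)
  · rintro hz ⟨S, hS, _⟩
    exact hz (bb_of_inverse (fun y hy => no_eigenvector hinf hQ hy) hS)

/-- **Answer to Q1 (yes), and hence to Q2 (no).**  If every closed invariant subspace of `T` other
than `0` and the whole space has finite codimension, then the essential spectrum of `T` is nonempty
and connected. -/
theorem result (hinf : ¬ FiniteDimensional ℂ E) (T : E →L[ℂ] E)
    (hT : InvariantSubspacesFiniteCodim T) : IsConnected (essSpectrum T) := by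
  rw [essSpectrum_eq hinf hT]
  obtain ⟨x, hx⟩ : ∃ x : E, x ≠ 0 := by
    by_contra hcon
    push Not at hcon
    apply hinf
    have : Subsingleton E := ⟨fun a b => by rw [hcon a, hcon b]⟩
    infer_instance
  set 𝒮 : Set (Submodule ℂ E) := {N | IsClosed (N : Set E) ∧ x ∈ N ∧ ∀ y ∈ N, T y ∈ N} with h𝒮
  set M : Submodule ℂ E := sInf 𝒮 with hM
  have hMcl : IsClosed (M : Set E) := by
    rw [hM, Submodule.coe_sInf]
    exact isClosed_biInter fun N hN => hN.1
  have hxM : x ∈ M := by
    rw [hM, Submodule.mem_sInf]
    exact fun N hN => hN.2.1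
  have hTM : ∀ y ∈ M, T y ∈ M := by
    intro y hy
    rw [hM, Submodule.mem_sInf] at hy ⊢
    exact fun N hN => hN.2.2 y (hy N hN)
  have hMbot : M ≠ ⊥ := by
    intro h
    rw [h, Submodule.mem_bot] at hxM
    exact hx hxM
  have hMfd : FiniteDimensional ℂ (E ⧸ M) := by
    by_cases htop : M = ⊤
    · rw [htop]
      infer_instance
    · exact hT M hMcl hMbot htop hTM
  have hMinf : ¬ FiniteDimensional ℂ M := by
    intro h
    exact hinf (Module.Finite.of_submodule_quotient M)
  have : CompleteSpace M := hMcl.completeSpace_coe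
  let T' : M →L[ℂ] M := (T.comp M.subtypeL).codRestrict M fun y => hTM y y.2
  have hT'a : ∀ y : M, ((T' y : M) : E) = T y := fun y => rfl
  -- images of invariant subspaces
  have himg : ∀ N : Submodule ℂ M, IsClosed (N : Set M) →
      IsClosed ((N.map M.subtype : Submodule ℂ E) : Set E) := by
    intro N hN
    rw [Submodule.map_coe]
    exact (hMcl.isClosedEmbedding_subtypeVal.isClosedMap) _ hN
  have himg' : ∀ N : Submodule ℂ M, (∀ y ∈ N, T' y ∈ N) →
      ∀ y ∈ N.map M.subtype, T y ∈ N.map M.subtype := by
    rintro N hN _ ⟨y, hy, rfl⟩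
    exact ⟨T' y, hN y hy, hT'a y⟩
  -- the restriction is in the class
  have hQ' : FinCodim T' := by
    intro N hN hbot htop hinv
    have h1 : FiniteDimensional ℂ (E ⧸ N.map M.subtype) := by
      refine hT _ (himg N hN) ?_ ?_ (himg' N hinv)
      · intro h
        apply hbot
        rw [eq_bot_iff]
        intro y hy
        have h2 : (y : E) ∈ N.map M.subtype := ⟨y, hy, rfl⟩
        rw [h, Submodule.mem_bot] at h2
        rw [Submodule.mem_bot]
        exact Subtype.ext h2
      · intro h
        apply htop
        rw [eq_top_iff]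
        intro y _
        have : (y : E) ∈ N.map M.subtype := by rw [h]; trivial
        obtain ⟨w, hw, hwy⟩ := this
        have : w = y := Subtype.ext hwy
        exact this ▸ hw
    have hle : N ≤ (N.map M.subtype).comap M.subtype := Submodule.le_comap_map _ _
    refine Module.Finite.of_injective (N.mapQ (N.map M.subtype) M.subtype hle) ?_
    rw [← LinearMap.ker_eq_bot, Submodule.ker_mapQ]
    rw [Submodule.comap_map_eq_of_injective (Submodule.injective_subtype M), Submodule.mkQ_map_self]
  -- cyclicity
  have hcyc : Dense (rep T' ⟨x, hxM⟩ : Set M) := by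
    set N : Submodule ℂ M := (rep T' ⟨x, hxM⟩).topologicalClosure with hN
    have hNc : IsClosed (N : Set M) := Submodule.isClosed_topologicalClosure _
    have hNT : ∀ y ∈ N, T' y ∈ N := by
      intro y hy
      exact map_mem_closure T'.continuous hy fun w hw => map_mem_rep hw
    have hmem : N.map M.subtype ∈ 𝒮 := by
      refine ⟨himg N hNc, ⟨⟨x, hxM⟩, ?_, rfl⟩, himg' N hNT⟩
      exact Submodule.le_topologicalClosure _ (self_mem_rep T' ⟨x, hxM⟩)
    intro y
    have h1 : (y : E) ∈ N.map M.subtype := (sInf_le hmem : M ≤ _) y.2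
    obtain ⟨w, hw, hwy⟩ := h1
    have : w = y := Subtype.ext hwy
    exact this ▸ hw
  have hmain := isConnected_cyc hMinf hcyc hQ'
  -- the two approximate point spectra agree
  have hset : {z | ¬ BB T z} = {z | ¬ BB T' z} := by
    ext z
    refine not_congr ⟨?_, ?_⟩
    · rintro ⟨c, hc, hb⟩
      exact ⟨c, hc, fun y => hb y⟩
    · intro hb
      have hcl : IsClosed (Set.range (T' - z • (1 : M →L[ℂ] M))) := bb_isClosed_range hb
      set R : E →L[ℂ] E := T - z • 1 with hR
      have hRinj : Function.Injective R := by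
        intro y y' hyy
        have h1 : T (y - y') = z • (y - y') := by
          rw [← sub_eq_zero, ← shift_apply, ← hR, map_sub, hyy, sub_self]
        exact sub_eq_zero.1 (no_eigenvector hinf hT h1)
      have hmap : IsClosed ((M.map (R : E →ₗ[ℂ] E) : Submodule ℂ E) : Set E) := by
        have e : ((M.map (R : E →ₗ[ℂ] E) : Submodule ℂ E) : Set E) =
            Subtype.val '' (Set.range (T' - z • (1 : M →L[ℂ] M))) := by
          ext w
          constructor
          · rintro ⟨y, hy, rfl⟩
            refine ⟨(T' - z • (1 : M →L[ℂ] M)) ⟨y, hy⟩, ⟨⟨y, hy⟩, rfl⟩, ?_⟩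
            simp [hR, hT'a]
          · rintro ⟨_, ⟨y, rfl⟩, rfl⟩
            refine ⟨y, y.2, ?_⟩
            simp [hR, hT'a]
        rw [e]
        exact hMcl.isClosedEmbedding_subtypeVal.isClosedMap _ hcl
      have hcofg : M.CoFG := hMfd
      have hran := LinearMap.isClosed_range_of_isClosed_map_of_finiteDimensional_quotient hmap
      have hran' : IsClosed (Set.range R) := by
        rw [LinearMap.coe_range] at hran
        exact hran
      obtain ⟨K, hK⟩ := R.antilipschitz_of_injective_of_isClosed_range hRinj hran'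
      refine ⟨((K : ℝ) + 1)⁻¹, by positivity, fun y => ?_⟩
      have h1 := hK.le_mul_dist y 0
      rw [dist_zero_right, map_zero, dist_zero_right, hR, shift_apply] at h1
      rw [inv_mul_le_iff₀ (by positivity)]
      nlinarith [norm_nonneg (T y - z • y)]
  rw [hset]
  exact hmain

end Pool.Agent.Results.MP_15dca6_an.EssSpectrumConnected
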